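import Pool.Agent.Q72.HI.Defs
import Pool.Agent.Q72.DP.Sub

/-!
# The coefficients of classes on `X × ℙ^(r-1)`
-/

open CategoryTheory AlgebraicGeometry

universe u v w

namespace Pool.Agent.Q72.HI

open Pool.Agent.H914 Pool.Agent.H914.VarClass Pool.Agent.H914.VarClass.Obj Pool.Agent.W492.BB
  Pool.Agent.W550.Corr Pool.Agent.TH133 Pool.Agent.TH829.Prime Pool.Agent.Q72.DP

set_option linter.unusedSectionVars false

variable {k : Type u} [Field k] {𝒱 : VarClass k} {C : TheoryData.{u, v, 0} 𝒱 ℚ}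
  [hC : IsChowProj C] {X P : 𝒱.Obj} {f : P ⟶ X} {r : ℕ} {ξ : C.A P} {L : C.A X}

include hC

lemma xi_pow (h : IsTrivialBundle C f r ξ) : ξ ^ r = 0 := by
  have h1 : ξ ^ r = -∑ i ∈ Finset.range r,
      C.pull f (if i + 1 = 0 then (1 : C.A X) else 0) * ξ ^ (r - (i + 1)) :=
    IsProjBundle.pow_eq h (by simp)
  rw [h1, Finset.sum_eq_zero, _root_.neg_zero]
  intro i _
  rw [if_neg (by omega), map_zero, zero_mul]

lemma push_xi (h : IsTrivialBundle C f r ξ) {j : ℕ} (hj : j + 1 < r) : C.push f (ξ ^ j) = 0 := by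
  have := IsProjBundle.push_pow h j (by omega)
  rwa [if_neg (by omega)] at this

lemma push_xi_top (h : IsTrivialBundle C f r ξ) : C.push f (ξ ^ (r - 1)) = 1 := by
  have hr := IsProjBundle.pos h
  have := IsProjBundle.push_pow h (r - 1) (by omega)
  rwa [if_pos (by omega)] at this

/-- The coefficient of `ξ^j`. -/
noncomputable def coef (f : P ⟶ X) (r : ℕ) (ξ : C.A P) (j : ℕ) (x : C.A P) : C.A X :=
  C.push f (x * ξ ^ (r - 1 - j))

lemma coef_mem (h : IsTrivialBundle C f r ξ) {n : ℤ} {x : C.A P} (hx : x ∈ C.gr P n) {j : ℕ}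
    (hj : j < r) : coef f r ξ j x ∈ C.gr X (n - j) := by
  have h1 := C.push_mem f (C.mul_mem hx (pow_mem1 (IsProjBundle.deg h) (r - 1 - j)))
  refine gr_congr ?_ h1
  have := IsProjBundle.dim_eq h
  omega

lemma coef_sum (h : IsTrivialBundle C f r ξ) (a : ℕ → C.A X) {j : ℕ} (hj : j < r) :
    coef f r ξ j (∑ i ∈ Finset.range r, C.pull f (a i) * ξ ^ i) = a j := by
  rw [coef, Finset.sum_mul, map_sum, Finset.sum_eq_single j]
  · rw [mul_assoc, ← pow_add, C.proj_left]
    have e1 : j + (r - 1 - j) = r - 1 := by omega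
    rw [e1, push_xi_top h, mul_one]
  · intro i hi hne
    rw [Finset.mem_range] at hi
    rw [mul_assoc, ← pow_add, C.proj_left]
    rcases lt_or_gt_of_ne hne with h1 | h1
    · rw [push_xi h (by omega), mul_zero]
    · have e1 : i + (r - 1 - j) = r + (i - j - 1) := by omega
      rw [e1, pow_add, xi_pow h, zero_mul, map_zero, mul_zero]
  · intro hne
    rw [Finset.mem_range] at hne
    omega

lemma coef_expand (h : IsTrivialBundle C f r ξ) {n : ℤ} {x : C.A P} (hx : x ∈ C.gr P n) :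
    x = ∑ i ∈ Finset.range r, C.pull f (coef f r ξ i x) * ξ ^ i := by
  obtain ⟨a, _, hxa⟩ := IsProjBundle.span h n x hx
  have hxa' : x = ∑ i ∈ Finset.range r, C.pull f (a i) * ξ ^ i := hxa
  have h1 : ∀ i, i < r → coef f r ξ i x = a i := by
    intro i hi
    rw [hxa']
    exact coef_sum h a hi
  conv_lhs => rw [hxa']
  refine Finset.sum_congr rfl fun i hi => ?_
  rw [Finset.mem_range] at hi
  rw [h1 i hi]

lemma coef_ext (h : IsTrivialBundle C f r ξ) {n : ℤ} {x : C.A P} (hx : x ∈ C.gr P n)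
    (h0 : ∀ j, j < r → coef f r ξ j x = 0) : x = 0 := by
  rw [coef_expand h hx, Finset.sum_eq_zero]
  intro i hi
  rw [Finset.mem_range] at hi
  rw [h0 i hi, map_zero, zero_mul]

lemma coef_mul (h : IsTrivialBundle C f r ξ) (x : C.A P) {j : ℕ} (hj : j + 1 < r) :
    coef f r ξ (j + 1) ((C.pull f L + ξ) * x) = L * coef f r ξ (j + 1) x + coef f r ξ j x := by
  rw [coef, coef, coef, add_mul, add_mul, map_add, mul_assoc (C.pull f L), C.proj_left]
  congr 1
  have e : ξ * x * ξ ^ (r - 1 - (j + 1)) = x * ξ ^ (r - 1 - j) := by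
    have e1 : r - 1 - j = (r - 1 - (j + 1)) + 1 := by omega
    rw [e1, pow_succ', ch_comm C ξ x, mul_assoc]
  rw [e]

lemma coef_mul_zero (h : IsTrivialBundle C f r ξ) (x : C.A P) :
    coef f r ξ 0 ((C.pull f L + ξ) * x) = L * coef f r ξ 0 x := by
  rw [coef, coef, add_mul, add_mul, map_add, mul_assoc (C.pull f L), C.proj_left]
  have hr := IsProjBundle.pos h
  have e : ξ * x * ξ ^ (r - 1 - 0) = 0 := by
    have e1 : ξ * x * ξ ^ (r - 1 - 0) = x * ξ ^ r := by
      have e1 : r = (r - 1 - 0) + 1 := by omega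
      conv_rhs => rw [e1, pow_succ']
      rw [ch_comm C ξ x, mul_assoc]
    rw [e1, xi_pow h, mul_zero]
  rw [e, map_zero, add_zero]

/-- The classes killed by `f^* L + ξ`, up to the coefficient of `1`. -/
lemma coef_kernel {x : C.A P}
    (hx : ∀ j, j + 1 < r → L * coef f r ξ (j + 1) x + coef f r ξ j x = 0) (s : ℕ)
    (hs : s + 1 ≤ r) : coef f r ξ (r - 1 - s) x = (-L) ^ s * coef f r ξ (r - 1) x := by
  induction s with
  | zero => rw [Nat.sub_zero, pow_zero, one_mul]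
  | succ s ih =>
    have h1 := hx (r - 1 - (s + 1)) (by omega)
    have e1 : r - 1 - (s + 1) + 1 = r - 1 - s := by omega
    rw [e1, ih (by omega)] at h1
    rw [pow_succ', mul_assoc, neg_mul]
    exact (neg_eq_of_add_eq_zero_right h1).symm

/-- The class `∑ (-L)^(r-1-j) z ξ^j`. -/
noncomputable def sig (f : P ⟶ X) (r : ℕ) (ξ : C.A P) (L z : C.A X) : C.A P :=
  ∑ j ∈ Finset.range r, C.pull f ((-L) ^ (r - 1 - j) * z) * ξ ^ j

lemma coef_sig (h : IsTrivialBundle C f r ξ) (z : C.A X) {j : ℕ} (hj : j < r) :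
    coef f r ξ j (sig f r ξ L z) = (-L) ^ (r - 1 - j) * z :=
  coef_sum h (fun j => (-L) ^ (r - 1 - j) * z) hj

lemma commute_pull (x : C.A P) (y : C.A P) : Commute x y := ch_comm C x y

lemma neg_mem_gr {i : ℤ} {x : C.A X} (hx : x ∈ C.gr X i) : -x ∈ C.gr X i :=
  Submodule.neg_mem _ hx

lemma sig_mem (h : IsTrivialBundle C f r ξ) (hL : C.Deg 1 L) {i : ℤ} {z : C.A X}
    (hz : z ∈ C.gr X i) : sig f r ξ L z ∈ C.gr P (i + (r - 1)) := by
  refine Submodule.sum_mem _ fun j hj => ?_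
  rw [Finset.mem_range] at hj
  have h1 := C.mul_mem (C.pull_mem f (C.mul_mem (pow_mem1 (neg_mem_gr hL) (r - 1 - j)) hz))
    (pow_mem1 (IsProjBundle.deg h) j)
  refine gr_congr ?_ h1
  omega

/-- `(f^* L + ξ) σ(z) = - f^* ((-L)^r z)`. -/
lemma mul_sig (h : IsTrivialBundle C f r ξ) (z : C.A X) :
    (C.pull f L + ξ) * sig f r ξ L z = -C.pull f ((-L) ^ r * z) := by
  have h1 := (commute_pull ξ (C.pull f (-L))).mul_geom_sum₂ r
  rw [xi_pow h] at h1
  have h2 : sig f r ξ L z = (∑ i ∈ Finset.range r, ξ ^ i * (C.pull f (-L)) ^ (r - 1 - i)) *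
      C.pull f z := by
    rw [sig, Finset.sum_mul]
    refine Finset.sum_congr rfl fun i _ => ?_
    rw [map_mul, map_pow, ch_comm C _ (ξ ^ i), mul_assoc]
  have h3 : C.pull f L + ξ = ξ - C.pull f (-L) := by rw [map_neg]; abel
  rw [h2, h3, ← mul_assoc, h1, zero_sub, neg_mul, map_mul, map_pow]

/-- Modulo the multiples of `f^* L + ξ` every class comes from `X`. -/
lemma reduce (h : IsTrivialBundle C f r ξ) (hL : C.Deg 1 L) {n : ℤ} {y : C.A P}
    (hy : y ∈ C.gr P n) :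
    ∃ (b : C.A X) (w : C.A P), b ∈ C.gr X n ∧ w ∈ C.gr P (n - 1) ∧
      y = C.pull f b + (C.pull f L + ξ) * w ∧
      b = ∑ j ∈ Finset.range r, (-L) ^ j * coef f r ξ j y ∧
      w = ∑ j ∈ Finset.range r, C.pull f (coef f r ξ j y) *
        ∑ i ∈ Finset.range j, ξ ^ i * (C.pull f (-L)) ^ (j - 1 - i) := by
  refine ⟨_, _, ?_, ?_, ?_, rfl, rfl⟩
  · refine Submodule.sum_mem _ fun j hj => ?_
    rw [Finset.mem_range] at hj
    have h1 := C.mul_mem (pow_mem1 (neg_mem_gr hL) j) (coef_mem h hy hj)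
    exact gr_congr (by ring) h1
  · refine Submodule.sum_mem _ fun j hj => ?_
    rw [Finset.mem_range] at hj
    rw [Finset.mul_sum]
    refine Submodule.sum_mem _ fun i hi => ?_
    rw [Finset.mem_range] at hi
    have h1 := C.mul_mem (C.pull_mem f (coef_mem h hy hj))
      (C.mul_mem (pow_mem1 (IsProjBundle.deg h) i)
        (pow_mem1 (C.pull_mem f (neg_mem_gr hL)) (j - 1 - i)))
    refine gr_congr ?_ h1
    omega
  · conv_lhs => rw [coef_expand h hy]
    rw [map_sum, Finset.mul_sum, ← Finset.sum_add_distrib]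
    refine Finset.sum_congr rfl fun j _ => ?_
    have h1 := (commute_pull ξ (C.pull f (-L))).mul_geom_sum₂ j
    have h3 : C.pull f L + ξ = ξ - C.pull f (-L) := by rw [map_neg]; abel
    rw [h3]
    have h4 : (ξ - C.pull f (-L)) * (C.pull f (coef f r ξ j y) *
        ∑ i ∈ Finset.range j, ξ ^ i * (C.pull f (-L)) ^ (j - 1 - i)) =
        C.pull f (coef f r ξ j y) * (ξ ^ j - (C.pull f (-L)) ^ j) := by
      rw [← h1, ← mul_assoc, ← mul_assoc, ch_comm C (ξ - C.pull f (-L))]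
    rw [h4, map_mul, map_pow, mul_sub, ch_comm C (C.pull f (-L) ^ j), add_sub_cancel]

end Pool.Agent.Q72.HI
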