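import Pool.Agent.Q72.DP.Defs

/-!
# Lefschetz and Hodge index statements for homologically trivial cycles: definitions
-/

open CategoryTheory AlgebraicGeometry

universe u v w

namespace Pool.Agent.Q72.HI

open Pool.Agent.H914 Pool.Agent.H914.VarClass Pool.Agent.H914.VarClass.Obj Pool.Agent.W492.BB
  Pool.Agent.TH133 Pool.Agent.TH829.Prime Pool.Agent.Q72.DP

variable {k : Type u} [Field k] {𝒱 : VarClass k}

/-- The morphism `f : P → X` is the projection `X × ℙ^(r-1) → X`, and `ξ` is the pull-back of the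
class of a hyperplane: `f` is the projective bundle of the trivial vector bundle of rank `r`. -/
def IsTrivialBundle (C : TheoryData.{u, v, 0} 𝒱 ℚ) {X P : 𝒱.Obj} (f : P ⟶ X) (r : ℕ)
    (ξ : C.A P) : Prop := IsProjBundle C f r (fun i => if i = 0 then 1 else 0) ξ

variable {C : TheoryData.{u, v, 0} 𝒱 ℚ} {K : Type w} [Field K] (H : WeilTheoryData.{u, v, w} C K)

/-- The multiplication by `L^t` is an isomorphism from the homologically trivial classes of
codimension `i` to those of codimension `i + t`. -/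
def LefschetzAt {X : 𝒱.Obj} (L : C.A X) (i t : ℕ) : Prop :=
  (∀ z : C.A X, C.Deg i z → H.cl z = 0 → L ^ t * z = 0 → z = 0) ∧
    ∀ y : C.A X, C.Deg ((i + t : ℕ) : ℤ) y → H.cl y = 0 →
      ∃ z : C.A X, C.Deg i z ∧ H.cl z = 0 ∧ y = L ^ t * z

/-- The class `x` has codimension `p` and is homologically trivial. -/
def Triv {X : 𝒱.Obj} (p : ℤ) (x : C.A X) : Prop := C.Deg p x ∧ H.cl x = 0

/-- Additivity of a pairing. -/
def HtAdd (ht : ∀ X : 𝒱.Obj, C.A X → C.A X → ℝ) : Prop :=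
  ∀ (X : 𝒱.Obj) (p q : ℤ) (x x' y : C.A X), p + q = X.dim + 1 → Triv H p x → Triv H p x' →
    Triv H q y → ht X (x + x') y = ht X x y + ht X x' y

/-- Symmetry of a pairing. -/
def HtSymm (ht : ∀ X : 𝒱.Obj, C.A X → C.A X → ℝ) : Prop :=
  ∀ (X : 𝒱.Obj) (p q : ℤ) (x y : C.A X), p + q = X.dim + 1 → Triv H p x → Triv H q y →
    ht X x y = ht X y x

/-- The formula `(u x, y) = (x, u y)`. -/
def HtMul (ht : ∀ X : 𝒱.Obj, C.A X → C.A X → ℝ) : Prop :=
  ∀ (X : 𝒱.Obj) (p q e : ℤ) (u x y : C.A X), p + q + e = X.dim + 1 → C.Deg e u → Triv H p x →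
    Triv H q y → ht X (C.mul u x) y = ht X x (C.mul u y)

/-- The formula `(f_* x, y) = (x, f^* y)`. -/
def HtPush (ht : ∀ X : 𝒱.Obj, C.A X → C.A X → ℝ) : Prop :=
  ∀ (X P : 𝒱.Obj) (f : P ⟶ X) (p q : ℤ) (x : C.A P) (y : C.A X), p + q = P.dim + 1 →
    Triv H p x → Triv H q y → ht X (C.down f x) y = ht P x (C.up f y)

/-- The formal properties of the height pairings `ht X` on the homologically trivial classes `x`,
`y` on `X` of codimensions `p`, `q` with `p + q = dim X + 1`: additivity, symmetry, the formulas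
`(u x, y) = (x, u y)` for all classes `u`, and `(f_* x, y) = (x, f^* y)` for all morphisms `f`. -/
structure IsHeight (ht : ∀ X : 𝒱.Obj, C.A X → C.A X → ℝ) : Prop where
  add : HtAdd H ht
  symmetric : HtSymm H ht
  mult : HtMul H ht
  proj : HtPush H ht

/-- The Hodge index statement: `(-1)^i (z, L^t z) > 0` for all homologically trivial `z ≠ 0` of
codimension `i` with `L^(t+1) z = 0`. -/
def HodgeIndexAt (ht : ∀ X : 𝒱.Obj, C.A X → C.A X → ℝ) {X : 𝒱.Obj} (L : C.A X) (i t : ℕ) : Prop :=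
  ∀ z : C.A X, C.Deg i z → H.cl z = 0 → z ≠ 0 → L ^ (t + 1) * z = 0 →
    0 < (-1 : ℝ) ^ i * ht X z (L ^ t * z)

/-- The sets `Amp X` of the classes of ample line bundles: they consist of divisor classes, and for
`L` ample on `X` the class `f^* L + ξ` on `X × ℙ^(r-1)` is ample. -/
def IsAmpleSystem (C : TheoryData.{u, v, 0} 𝒱 ℚ) (Amp : ∀ X : 𝒱.Obj, Set (C.A X)) : Prop :=
  ∀ (X : 𝒱.Obj) (L : C.A X), L ∈ Amp X → C.Deg 1 L ∧ ∀ r : ℕ, 1 ≤ r →
    ∃ (P : 𝒱.Obj) (f : P ⟶ X) (ξ : C.A P), IsTrivialBundle C f r ξ ∧ C.up f L + ξ ∈ Amp P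

end Pool.Agent.Q72.HI
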