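import Pool.Agent.Q72.HI.Defs

/-!
# The arithmetic Hodge index conjecture for all varieties: definitions
-/

open CategoryTheory AlgebraicGeometry

universe u v w

namespace Pool.Agent.Q72.HI

open Pool.Agent.H914 Pool.Agent.H914.VarClass Pool.Agent.H914.VarClass.Obj Pool.Agent.W492.BB
  Pool.Agent.TH133 Pool.Agent.TH829.Prime Pool.Agent.Q72.DP

variable {k : Type u} [Field k] {𝒱 : VarClass k} {C : TheoryData.{u, v, 0} 𝒱 ℚ} {K : Type w}
  [Field K] (H : WeilTheoryData.{u, v, w} C K) (ht : ∀ X : 𝒱.Obj, C.A X → C.A X → ℝ)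
  (Amp : ∀ X : 𝒱.Obj, Set (C.A X))

/-- The Hodge index statement for `(X, L, i)`, `t = dim X + 1 - 2 i`, is equivalent to that for
`(X × ℙ^t, f^* L + ξ, i + t)`. -/
def HodgeProduct : Prop :=
  ∀ (X P : 𝒱.Obj) (f : P ⟶ X) (ξ : C.A P) (L : C.A X) (i t : ℕ), IsTrivialBundle C f (t + 1) ξ →
    C.Deg 1 L → X.dim + 1 = 2 * i + t →
      (HodgeIndexAt H ht L i t ↔ HodgeIndexAt H ht (C.up f L + ξ) (i + t) 0)

/-- The arithmetic Hodge index conjecture: the statement for all `X`, `L` ample and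
`i ≤ (dim X + 1) / 2`. -/
def HodgeAll : Prop :=
  ∀ (X : 𝒱.Obj) (L : C.A X), L ∈ Amp X → ∀ i : ℕ, 2 * i ≤ X.dim + 1 →
    HodgeIndexAt H ht L i (X.dim + 1 - 2 * i)

/-- The statement for the varieties `X` of dimension `2 m - 1`, `L` ample and codimension `m`:
`(-1)^m (x, x) > 0` for `x ≠ 0` with `L x = 0`. -/
def HodgeMiddle : Prop :=
  ∀ (X : 𝒱.Obj) (L : C.A X), L ∈ Amp X → ∀ m : ℕ, X.dim + 1 = 2 * m → HodgeIndexAt H ht L m 0

/-- The maps `L^t : CH^i(X)^0 → CH^(i+t)(X)^0`, `t = dim X + 1 - 2 i`, `L` ample, are injective. -/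
def LefschetzInjective : Prop :=
  ∀ (X : 𝒱.Obj) (L : C.A X), L ∈ Amp X → ∀ (i t : ℕ) (z : C.A X), X.dim + 1 = 2 * i + t →
    C.Deg i z → H.cl z = 0 → L ^ t * z = 0 → z = 0

end Pool.Agent.Q72.HI
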