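import Pool.Agent.Q72.HI.Lef

/-!
# The Hodge index statement for homologically trivial cycles in the middle dimension
-/

open CategoryTheory AlgebraicGeometry

universe u v w

namespace Pool.Agent.Q72.HI

open Pool.Agent.H914 Pool.Agent.H914.VarClass Pool.Agent.H914.VarClass.Obj Pool.Agent.W492.BB
  Pool.Agent.W550.Corr Pool.Agent.TH133 Pool.Agent.TH829.Prime Pool.Agent.Q72.DP

set_option linter.unusedSectionVars false

variable {k : Type u} [Field k] {𝒱 : VarClass k} {C : TheoryData.{u, v, 0} 𝒱 ℚ}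
  [hC : IsChowProj C] {K : Type w} [Field K] {H : WeilTheoryData.{u, v, w} C K} [hH : IsWeilProj H]
  {ht : ∀ X : 𝒱.Obj, C.A X → C.A X → ℝ} {X P : 𝒱.Obj} {f : P ⟶ X} {ξ : C.A P} {L : C.A X}

include hC hH

omit hC hH in
lemma IsHeight.add_left (hh : IsHeight H ht) (X : 𝒱.Obj) (p q : ℤ) (x x' y : C.A X)
    (h : p + q = X.dim + 1) (hx : C.Deg p x) (hx' : C.Deg p x') (hy : C.Deg q y)
    (hxc : H.cl x = 0) (hxc' : H.cl x' = 0) (hyc : H.cl y = 0) :
    ht X (x + x') y = ht X x y + ht X x' y := hh.add X p q x x' y h ⟨hx, hxc⟩ ⟨hx', hxc'⟩ ⟨hy, hyc⟩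

omit hC hH in
lemma IsHeight.symm (hh : IsHeight H ht) (X : 𝒱.Obj) (p q : ℤ) (x y : C.A X)
    (h : p + q = X.dim + 1) (hx : C.Deg p x) (hy : C.Deg q y) (hxc : H.cl x = 0)
    (hyc : H.cl y = 0) : ht X x y = ht X y x := hh.symmetric X p q x y h ⟨hx, hxc⟩ ⟨hy, hyc⟩

omit hC hH in
lemma IsHeight.mul (hh : IsHeight H ht) (X : 𝒱.Obj) (p q e : ℤ) (u x y : C.A X)
    (h : p + q + e = X.dim + 1) (hu : C.Deg e u) (hx : C.Deg p x) (hy : C.Deg q y)
    (hxc : H.cl x = 0) (hyc : H.cl y = 0) : ht X (C.mul u x) y = ht X x (C.mul u y) :=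
  hh.mult X p q e u x y h hu ⟨hx, hxc⟩ ⟨hy, hyc⟩

omit hC hH in
lemma IsHeight.push (hh : IsHeight H ht) (X P : 𝒱.Obj) (f : P ⟶ X) (p q : ℤ) (x : C.A P)
    (y : C.A X) (h : p + q = P.dim + 1) (hx : C.Deg p x) (hy : C.Deg q y) (hxc : H.cl x = 0)
    (hyc : H.cl y = 0) : ht X (C.down f x) y = ht P x (C.up f y) :=
  hh.proj X P f p q x y h ⟨hx, hxc⟩ ⟨hy, hyc⟩

lemma ht_zero_left (hh : IsHeight H ht) {p q : ℤ} {y : C.A X} (hpq : p + q = X.dim + 1)
    (hy : C.Deg q y) (hyc : H.cl y = 0) : ht X 0 y = 0 := by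
  have h := hh.add_left X p q 0 0 y hpq (Submodule.zero_mem _) (Submodule.zero_mem _) hy
    (map_zero _) (map_zero _) hyc
  rw [add_zero] at h
  linarith

lemma ht_zero_right (hh : IsHeight H ht) {p q : ℤ} {x : C.A X} (hpq : p + q = X.dim + 1)
    (hx : C.Deg p x) (hxc : H.cl x = 0) : ht X x 0 = 0 := by
  rw [hh.symm X p q x 0 hpq hx (Submodule.zero_mem _) hxc (map_zero _)]
  exact ht_zero_left hh (by rw [add_comm, hpq]) hx hxc

lemma ht_neg_right (hh : IsHeight H ht) {p q : ℤ} {x y : C.A X} (hpq : p + q = X.dim + 1)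
    (hx : C.Deg p x) (hy : C.Deg q y) (hxc : H.cl x = 0) (hyc : H.cl y = 0) :
    ht X x (-y) = -ht X x y := by
  have hyn : H.cl (-y) = 0 := by rw [map_neg, hyc, _root_.neg_zero]
  have h := hh.add_left X q p y (-y) x (by rw [add_comm, hpq]) hy (Submodule.neg_mem _ hy) hx
    hyc hyn hxc
  rw [add_neg_cancel, ht_zero_left hh (p := q) (q := p) (by rw [add_comm, hpq]) hx hxc] at h
  rw [hh.symm X p q x (-y) hpq hx (Submodule.neg_mem _ hy) hxc hyn,
    hh.symm X p q x y hpq hx hy hxc hyc]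
  linarith

lemma ht_sum_left (hh : IsHeight H ht) {p q : ℤ} {y : C.A X} (hpq : p + q = X.dim + 1)
    (hy : C.Deg q y) (hyc : H.cl y = 0) (s : Finset ℕ) (x : ℕ → C.A X)
    (hx : ∀ j ∈ s, C.Deg p (x j)) (hxc : ∀ j ∈ s, H.cl (x j) = 0) :
    ht X (∑ j ∈ s, x j) y = ∑ j ∈ s, ht X (x j) y := by
  classical
  induction s using Finset.induction_on with
  | empty => rw [Finset.sum_empty, Finset.sum_empty, ht_zero_left hh hpq hy hyc]
  | insert j s hj ih =>
    rw [Finset.sum_insert hj, Finset.sum_insert hj, ← ih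
      (fun i hi => hx i (Finset.mem_insert_of_mem hi))
      (fun i hi => hxc i (Finset.mem_insert_of_mem hi))]
    exact hh.add_left X p q _ _ y hpq (hx j (Finset.mem_insert_self _ _))
      (Submodule.sum_mem _ fun i hi => hx i (Finset.mem_insert_of_mem hi)) hy
      (hxc j (Finset.mem_insert_self _ _))
      (cl_sum_zero fun i hi => hxc i (Finset.mem_insert_of_mem hi)) hyc

/-- The self-pairing of `σ(z)`. -/
lemma ht_sig (hh : IsHeight H ht) {i t : ℕ} (h : IsTrivialBundle C f (t + 1) ξ) (hL : C.Deg 1 L)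
    (hd : X.dim + 1 = 2 * i + t) {z : C.A X} (hz : C.Deg i z) (hcl : H.cl z = 0) :
    ht P (sig f (t + 1) ξ L z) (sig f (t + 1) ξ L z) =
      (t + 1) * ((-1 : ℝ) ^ t * ht X z (L ^ t * z)) := by
  have hdP := IsProjBundle.dim_eq h
  have hLn : (-L) ∈ C.gr X 1 := Submodule.neg_mem _ hL
  have hξ := IsProjBundle.deg h
  set x := sig f (t + 1) ξ L z with hx
  have hxd : C.Deg ((i + t : ℕ) : ℤ) x := gr_congr (by push_cast; ring) (sig_mem h hL hz)
  have hxc : H.cl x = 0 := sig_cl hcl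
  have hterm : ∀ j ∈ Finset.range (t + 1),
      ht P (C.pull f ((-L) ^ (t + 1 - 1 - j) * z) * ξ ^ j) x = (-1 : ℝ) ^ t * ht X z (L ^ t * z) := by
    intro j hj
    rw [Finset.mem_range] at hj
    have haz : C.Deg ((i + t - j : ℕ) : ℤ) ((-L) ^ (t + 1 - 1 - j) * z) := by
      refine gr_congr ?_ (C.mul_mem (pow_mem1 hLn (t + 1 - 1 - j)) hz)
      omega
    have hac : H.cl ((-L) ^ (t + 1 - 1 - j) * z) = 0 := cl_mul_zero' hcl
    have h1 : ht P (C.mul (ξ ^ j) (C.pull f ((-L) ^ (t + 1 - 1 - j) * z))) x =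
        ht P (C.pull f ((-L) ^ (t + 1 - 1 - j) * z)) (C.mul (ξ ^ j) x) :=
      hh.mul P ((i + t - j : ℕ) : ℤ) ((i + t : ℕ) : ℤ) j _ _ _ (by omega) (pow_mem1 hξ j)
        (C.pull_mem f haz) hxd (cl_pull_zero hac) hxc
    have hjx : C.Deg ((i + t + j : ℕ) : ℤ) (C.mul (ξ ^ j) x) :=
      gr_congr (by push_cast; ring) (C.mul_mem (pow_mem1 hξ j) hxd)
    have hjc : H.cl (C.mul (ξ ^ j) x) = 0 := cl_mul_zero' hxc
    have h2 := hh.symm P ((i + t - j : ℕ) : ℤ) ((i + t + j : ℕ) : ℤ)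
      (C.pull f ((-L) ^ (t + 1 - 1 - j) * z)) (C.mul (ξ ^ j) x) (by omega) (C.pull_mem f haz) hjx
      (cl_pull_zero hac) hjc
    have h3 := hh.push X P f ((i + t + j : ℕ) : ℤ) ((i + t - j : ℕ) : ℤ) (C.mul (ξ ^ j) x)
      ((-L) ^ (t + 1 - 1 - j) * z) (by omega) hjx haz hjc hac
    have h4 : C.down f (C.mul (ξ ^ j) x) = (-L) ^ j * z := by
      have h5 := coef_sig (L := L) h z (by omega : t - j < t + 1)
      rw [coef] at h5
      have e1 : t + 1 - 1 - (t - j) = j := by omega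
      rw [e1, ← hx, ch_comm C x] at h5
      exact h5
    have h5 : ht X (C.mul ((-L) ^ j) z) ((-L) ^ (t + 1 - 1 - j) * z) =
        ht X z (C.mul ((-L) ^ j) ((-L) ^ (t + 1 - 1 - j) * z)) :=
      hh.mul X i ((i + t - j : ℕ) : ℤ) j _ _ _ (by omega) (pow_mem1 hLn j) hz haz hcl hac
    have h6 : C.mul ((-L) ^ j) ((-L) ^ (t + 1 - 1 - j) * z) = (-L) ^ t * z := by
      rw [TheoryData.mul, ← mul_assoc, ← pow_add]
      congr 2
      omega
    have h7 : ht X z ((-L) ^ t * z) = (-1 : ℝ) ^ t * ht X z (L ^ t * z) := by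
      have hLz : C.Deg ((i + t : ℕ) : ℤ) (L ^ t * z) :=
        gr_congr (by push_cast; ring) (C.mul_mem (pow_mem1 hL t) hz)
      rcases Nat.even_or_odd t with he | ho
      · rw [he.neg_pow, he.neg_one_pow, one_mul]
      · rw [ho.neg_pow, ho.neg_one_pow, neg_mul, neg_mul, one_mul]
        exact ht_neg_right hh (p := i) (q := ((i + t : ℕ) : ℤ)) (by omega) hz hLz hcl
          (cl_mul_zero' hcl)
    rw [ch_comm C _ (ξ ^ j)]
    have h8 : ht P (ξ ^ j * C.pull f ((-L) ^ (t + 1 - 1 - j) * z)) x =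
        ht X z ((-L) ^ t * z) := by
      rw [← h6, ← h5]
      have h9 : C.mul ((-L) ^ j) z = C.down f (C.mul (ξ ^ j) x) := h4.symm
      rw [h9, h3]
      exact h1.trans h2
    rw [h8, h7]
  have hsum : ht P x x = ∑ j ∈ Finset.range (t + 1),
      ht P (C.pull f ((-L) ^ (t + 1 - 1 - j) * z) * ξ ^ j) x := by
    have h1 := ht_sum_left hh (X := P) (p := ((i + t : ℕ) : ℤ)) (q := ((i + t : ℕ) : ℤ)) (y := x)
      (by omega) hxd hxc (Finset.range (t + 1))
      (fun j => C.pull f ((-L) ^ (t + 1 - 1 - j) * z) * ξ ^ j) (by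
        intro j hj
        rw [Finset.mem_range] at hj
        have h2 := C.mul_mem (C.pull_mem f (C.mul_mem (pow_mem1 hLn (t + 1 - 1 - j)) hz))
          (pow_mem1 hξ j)
        refine gr_congr ?_ h2
        omega) (fun j _ => cl_mul_zero (cl_pull_zero (cl_mul_zero' hcl)))
    conv_lhs => rw [hx, sig]
    rw [← h1, hx, sig]
  rw [hsum, Finset.sum_congr rfl hterm, Finset.sum_const, Finset.card_range, nsmul_eq_mul]
  push_cast
  ring

/-- The Hodge index statement on `X` and in the middle codimension on `X × ℙ^t`. -/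
theorem hodge_iff (hh : IsHeight H ht) {i t : ℕ} (h : IsTrivialBundle C f (t + 1) ξ)
    (hL : C.Deg 1 L) (hd : X.dim + 1 = 2 * i + t) :
    HodgeIndexAt H ht L i t ↔ HodgeIndexAt H ht (C.up f L + ξ) (i + t) 0 := by
  have hsgn : ∀ z : C.A X, (-L) ^ (t + 1) * z = (-1 : ℚ) ^ (t + 1) • (L ^ (t + 1) * z) := by
    intro z
    have : -L = (-1 : ℚ) • L := by rw [neg_smul, one_smul]
    rw [this, smul_pow, smul_mul_assoc]
  have hreal : ∀ a : ℝ, (-1 : ℝ) ^ (i + t) * ((t + 1) * ((-1 : ℝ) ^ t * a)) =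
      (t + 1) * ((-1 : ℝ) ^ i * a) := by
    intro a
    have h1 : (-1 : ℝ) ^ t * (-1) ^ t = 1 := by
      rw [← mul_pow]
      norm_num
    rw [pow_add]
    linear_combination ((-1 : ℝ) ^ i * (t + 1) * a) * h1
  constructor
  · intro hI x hx hcl hne hG
    rw [zero_add, pow_one] at hG
    have hG' : (C.pull f L + ξ) * x = 0 := hG
    have h1 : ∀ j, j + 1 < t + 1 → L * coef f (t + 1) ξ (j + 1) x + coef f (t + 1) ξ j x = 0 := by
      intro j hj
      rw [← coef_mul h x hj, hG', coef, zero_mul, map_zero]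
    have h2 := coef_kernel (f := f) (r := t + 1) (ξ := ξ) (L := L) (x := x) h1
    have h0 : L * coef f (t + 1) ξ 0 x = 0 := by
      rw [← coef_mul_zero h x, hG', coef, zero_mul, map_zero]
    set z := coef f (t + 1) ξ t x with hz
    have hzd : C.Deg i z := gr_congr (by push_cast; ring) (coef_mem h hx (by omega : t < t + 1))
    have hzc : H.cl z = 0 := coef_cl hcl _
    have hzL : L ^ (t + 1) * z = 0 := by
      have h4 := h2 t (by omega)
      simp only [Nat.add_sub_cancel, Nat.sub_self] at h4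
      rw [← hz] at h4
      rw [h4, ← mul_assoc] at h0
      have e : (-L) ^ (t + 1) = -(L * (-L) ^ t) := by rw [pow_succ', neg_mul]
      have h5 : (-L) ^ (t + 1) * z = 0 := by rw [e, neg_mul, h0, _root_.neg_zero]
      rw [hsgn] at h5
      exact (smul_eq_zero.1 h5).resolve_left (pow_ne_zero _ (by norm_num))
    have hxz : x = sig f (t + 1) ξ L z := by
      conv_lhs => rw [coef_expand h hx]
      rw [sig]
      refine Finset.sum_congr rfl fun j hj => ?_
      rw [Finset.mem_range] at hj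
      have h5 := h2 (t + 1 - 1 - j) (by omega)
      have e : t + 1 - 1 - (t + 1 - 1 - j) = j := by omega
      have e' : t + 1 - 1 = t := by omega
      rw [e] at h5
      rw [h5, e', ← hz]
    have hzne : z ≠ 0 := by
      intro h5
      apply hne
      rw [hxz, h5, sig, Finset.sum_eq_zero]
      intro j _
      rw [mul_zero, map_zero, zero_mul]
    have h6 := hI z hzd hzc hzne hzL
    rw [pow_zero, one_mul]
    have h7 : ht P x x = (t + 1) * ((-1 : ℝ) ^ t * ht X z (L ^ t * z)) := by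
      rw [hxz]
      exact ht_sig hh h hL hd hzd hzc
    rw [h7, hreal]
    have h8 : (0 : ℝ) < (t : ℝ) + 1 := by positivity
    exact mul_pos h8 h6
  · intro hI z hz hcl hne hLz
    have h1 := hI (sig f (t + 1) ξ L z) (gr_congr (by push_cast; ring) (sig_mem h hL hz))
      (sig_cl hcl) (by
        intro h5
        apply hne
        have h2 := coef_sig (L := L) h z (by omega : t < t + 1)
        rw [h5, coef, zero_mul, map_zero, Nat.add_sub_cancel, Nat.sub_self, pow_zero, one_mul] at h2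
        exact h2.symm) (by
        rw [zero_add, pow_one]
        have h2 : (C.up f L + ξ) * sig f (t + 1) ξ L z = -C.pull f ((-L) ^ (t + 1) * z) :=
          mul_sig h z
        rw [h2, hsgn, hLz, smul_zero, map_zero, _root_.neg_zero])
    rw [pow_zero, one_mul, ht_sig hh h hL hd hz hcl, hreal] at h1
    have h8 : (0 : ℝ) < (t : ℝ) + 1 := by positivity
    exact (mul_pos_iff_of_pos_left h8).1 h1

/-- The Hodge index statement implies the injectivity of `L^t`. -/
lemma HodgeIndexAt.injective (hh : IsHeight H ht) {i t : ℕ} (hd : X.dim + 1 = 2 * i + t)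
    (hI : HodgeIndexAt H ht L i t) {z : C.A X} (hz : C.Deg i z) (hcl : H.cl z = 0)
    (hLz : L ^ t * z = 0) : z = 0 := by
  by_contra hne
  have h1 := hI z hz hcl hne (by rw [pow_succ', mul_assoc, hLz, mul_zero])
  rw [hLz, ht_zero_right hh (p := i) (q := ((i + t : ℕ) : ℤ)) (by omega) hz hcl, mul_zero] at h1
  exact lt_irrefl _ h1

/-- The Hodge index statements in all codimensions, and those in the middle codimension of
odd-dimensional varieties. -/
theorem hodge_all (hh : IsHeight H ht) {Amp : ∀ X : 𝒱.Obj, Set (C.A X)}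
    (hA : IsAmpleSystem C Amp) :
    (∀ (X : 𝒱.Obj) (L : C.A X), L ∈ Amp X → ∀ i : ℕ, 2 * i ≤ X.dim + 1 →
      HodgeIndexAt H ht L i (X.dim + 1 - 2 * i)) ↔
      ∀ (X : 𝒱.Obj) (L : C.A X), L ∈ Amp X → ∀ m : ℕ, X.dim + 1 = 2 * m →
        HodgeIndexAt H ht L m 0 := by
  constructor
  · intro h X L hL m hm
    have h1 := h X L hL m (by omega)
    have e : X.dim + 1 - 2 * m = 0 := by omega
    rwa [e] at h1
  · intro h X L hL i hi
    obtain ⟨hL1, hprod⟩ := hA X L hL
    obtain ⟨P, f, ξ, hf, hG⟩ := hprod (X.dim + 1 - 2 * i + 1) (by omega)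
    rw [hodge_iff hh hf hL1 (by omega)]
    have hd := IsProjBundle.dim_eq hf
    exact h P _ hG (i + (X.dim + 1 - 2 * i)) (by omega)

end Pool.Agent.Q72.HI
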