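import Pool.Agent.Q72.HI.Coef

/-!
# The Lefschetz statement for homologically trivial cycles in the middle dimension
-/

open CategoryTheory AlgebraicGeometry

universe u v w

namespace Pool.Agent.Q72.HI

open Pool.Agent.H914 Pool.Agent.H914.VarClass Pool.Agent.H914.VarClass.Obj Pool.Agent.W492.BB
  Pool.Agent.W550.Corr Pool.Agent.TH133 Pool.Agent.TH829.Prime Pool.Agent.Q72.DP

set_option linter.unusedSectionVars false

variable {k : Type u} [Field k] {𝒱 : VarClass k} {C : TheoryData.{u, v, 0} 𝒱 ℚ}
  [hC : IsChowProj C] {K : Type w} [Field K] {H : WeilTheoryData.{u, v, w} C K} [hH : IsWeilProj H]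
  {X P : 𝒱.Obj} {f : P ⟶ X} {r : ℕ} {ξ : C.A P} {L : C.A X}

include hC hH

lemma coef_cl {x : C.A P} (hx : H.cl x = 0) (j : ℕ) : H.cl (coef f r ξ j x) = 0 :=
  cl_push_zero (cl_mul_zero hx)

lemma cl_mul_zero' {x y : C.A X} (hy : H.cl y = 0) : H.cl (x * y) = 0 := by
  rw [map_mul, hy, mul_zero]

lemma cl_sum_zero {s : Finset ℕ} {x : ℕ → C.A X} (hx : ∀ i ∈ s, H.cl (x i) = 0) :
    H.cl (∑ i ∈ s, x i) = 0 := by
  rw [map_sum]
  exact Finset.sum_eq_zero hx

lemma sig_cl {z : C.A X} (hz : H.cl z = 0) : H.cl (sig f r ξ L z) = 0 :=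
  cl_sum_zero fun _ _ => cl_mul_zero (cl_pull_zero (cl_mul_zero' hz))

/-- The Lefschetz statement for `L^r` on `X` and for `f^* L + ξ` on `X × ℙ^(r-1)`. -/
theorem lefschetz_iff (h : IsTrivialBundle C f r ξ) (hL : C.Deg 1 L) (i : ℕ) :
    LefschetzAt H L i r ↔ LefschetzAt H (C.up f L + ξ) (i + r - 1) 1 := by
  have hr := IsProjBundle.pos h
  have hsgn : ∀ z : C.A X, (-L) ^ r * z = (-1 : ℚ) ^ r • (L ^ r * z) := by
    intro z
    have : -L = (-1 : ℚ) • L := by rw [neg_smul, one_smul]
    rw [this, smul_pow, smul_mul_assoc]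
  constructor
  · rintro ⟨hi, hs⟩
    constructor
    · intro x hx hcl hG
      rw [pow_one] at hG
      have h1 : ∀ j, j + 1 < r → L * coef f r ξ (j + 1) x + coef f r ξ j x = 0 := by
        intro j hj
        rw [← coef_mul h x hj]
        have : (C.pull f L + ξ) * x = 0 := hG
        rw [this, coef, zero_mul, map_zero]
      have h2 := coef_kernel (f := f) (r := r) (ξ := ξ) (L := L) (x := x) h1
      have h0 : L * coef f r ξ 0 x = 0 := by
        rw [← coef_mul_zero h x]
        have : (C.pull f L + ξ) * x = 0 := hG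
        rw [this, coef, zero_mul, map_zero]
      have h3 : L ^ r * coef f r ξ (r - 1) x = 0 := by
        have h4 := h2 (r - 1) (by omega)
        rw [Nat.sub_self] at h4
        rw [h4, ← mul_assoc] at h0
        have e : (-L) ^ r = -(L * (-L) ^ (r - 1)) := by
          conv_lhs => rw [show r = (r - 1) + 1 by omega, pow_succ']
          rw [neg_mul]
        have h5 : (-L) ^ r * coef f r ξ (r - 1) x = 0 := by rw [e, neg_mul, h0, _root_.neg_zero]
        rw [hsgn] at h5
        exact (smul_eq_zero.1 h5).resolve_left (pow_ne_zero _ (by norm_num))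
      have h4 : coef f r ξ (r - 1) x = 0 := by
        refine hi _ ?_ (coef_cl hcl _) h3
        refine gr_congr ?_ (coef_mem h hx (by omega : r - 1 < r))
        omega
      apply coef_ext h hx
      intro j hj
      have h5 := h2 (r - 1 - j) (by omega)
      rw [h4, mul_zero] at h5
      have e : r - 1 - (r - 1 - j) = j := by omega
      rwa [e] at h5
    · intro y hy hcl
      obtain ⟨b, w, hb, hw, hyb, hbdef, hwdef⟩ := reduce h hL hy
      have hbcl : H.cl b = 0 := by
        rw [hbdef]
        exact cl_sum_zero fun j _ => cl_mul_zero' (coef_cl hcl j)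
      have hwcl : H.cl w = 0 := by
        rw [hwdef]
        exact cl_sum_zero fun j _ => cl_mul_zero (cl_pull_zero (coef_cl hcl j))
      obtain ⟨z, hz, hzcl, hbz⟩ := hs b (gr_congr (by omega) hb) hbcl
      refine ⟨(-(-1 : ℚ) ^ r) • sig f r ξ L z + w, ?_, ?_, ?_⟩
      · refine Submodule.add_mem _ (Submodule.smul_mem _ _ ?_) ?_
        · exact gr_congr (by omega) (sig_mem h hL hz)
        · exact gr_congr (by omega) hw
      · have h1 : H.cl ((-(-1 : ℚ) ^ r) • sig f r ξ L z) = 0 := by
          rw [← mul_one (sig f r ξ L z), ← mul_smul_comm]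
          exact cl_mul_zero (sig_cl hzcl)
        rw [map_add, h1, hwcl, add_zero]
      · have h2 : (C.pull f L + ξ) * sig f r ξ L z = -C.pull f ((-L) ^ r * z) := mul_sig h z
        rw [pow_one, mul_add]
        have h3 : (C.up f L + ξ) * ((-(-1 : ℚ) ^ r) • sig f r ξ L z) = C.pull f b := by
          rw [mul_smul_comm]
          have h4 : (C.up f L + ξ) * sig f r ξ L z = -C.pull f ((-L) ^ r * z) := h2
          have h5 : -(-1 : ℚ) ^ r * (-1) ^ r = -1 := by
            rw [neg_mul, ← mul_pow]
            norm_num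
          rw [h4, hsgn, map_smul, ← hbz, smul_neg, smul_smul, h5, neg_smul, one_smul, neg_neg]
        · conv_lhs => rw [hyb]
          rw [h3]
  · rintro ⟨hi, hs⟩
    constructor
    · intro z hz hcl hLz
      have h1 : sig f r ξ L z = 0 := by
        refine hi _ (gr_congr (by omega) (sig_mem h hL hz)) (sig_cl hcl) ?_
        have h2 : (C.pull f L + ξ) * sig f r ξ L z = -C.pull f ((-L) ^ r * z) := mul_sig h z
        rw [pow_one]
        have h3 : (C.up f L + ξ) * sig f r ξ L z = -C.pull f ((-L) ^ r * z) := h2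
        rw [h3, hsgn, hLz, smul_zero, map_zero, _root_.neg_zero]
      have h2 := coef_sig (L := L) h z (by omega : r - 1 < r)
      rw [h1, coef, zero_mul, map_zero, Nat.sub_self, pow_zero, one_mul] at h2
      exact h2.symm
    · intro y hy hcl
      obtain ⟨x, hx, hxcl, hyx⟩ := hs (C.pull f y) (by
        refine gr_congr ?_ (C.pull_mem f hy)
        omega) (cl_pull_zero hcl)
      rw [pow_one] at hyx
      have hyx' : (C.pull f L + ξ) * x = C.pull f y := hyx.symm
      have hcoef : ∀ j, j < r → coef f r ξ j (C.pull f y) = if j = 0 then y else 0 := by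
        intro j hj
        have h1 := coef_sum h (fun i => if i = 0 then y else 0) hj
        have h2 : ∑ i ∈ Finset.range r, C.pull f (if i = 0 then y else 0) * ξ ^ i =
            C.pull f y := by
          rw [Finset.sum_eq_single 0]
          · simp
          · intro i _ hi
            rw [if_neg hi, map_zero, zero_mul]
          · intro h0
            rw [Finset.mem_range] at h0
            omega
        rwa [h2] at h1
      have h1 : ∀ j, j + 1 < r → L * coef f r ξ (j + 1) x + coef f r ξ j x = 0 := by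
        intro j hj
        rw [← coef_mul h x hj, hyx', hcoef (j + 1) hj, if_neg (by omega)]
      have h2 := coef_kernel (f := f) (r := r) (ξ := ξ) (L := L) (x := x) h1 (r - 1) (by omega)
      rw [Nat.sub_self] at h2
      have h0 : y = L * coef f r ξ 0 x := by
        rw [← coef_mul_zero h x, hyx', hcoef 0 (by omega), if_pos rfl]
      have h3 : y = -((-L) ^ r * coef f r ξ (r - 1) x) := by
        have e : (-L) ^ r = -(L * (-L) ^ (r - 1)) := by
          conv_lhs => rw [show r = (r - 1) + 1 by omega, pow_succ']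
          rw [neg_mul]
        rw [e, neg_mul, neg_neg, mul_assoc, ← h2]
        exact h0
      refine ⟨(-(-1 : ℚ) ^ r) • coef f r ξ (r - 1) x, ?_, ?_, ?_⟩
      · refine Submodule.smul_mem _ _ ?_
        refine gr_congr ?_ (coef_mem h hx (by omega : r - 1 < r))
        omega
      · rw [← mul_one (coef f r ξ (r - 1) x), ← mul_smul_comm]
        exact cl_mul_zero (coef_cl hxcl _)
      · rw [mul_smul_comm, neg_smul, ← hsgn]
        exact h3

/-- The Lefschetz statements in all codimensions, and those in the middle codimension of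
even-dimensional varieties. -/
theorem lefschetz_all {Amp : ∀ X : 𝒱.Obj, Set (C.A X)} (hA : IsAmpleSystem C Amp) :
    (∀ (X : 𝒱.Obj) (L : C.A X), L ∈ Amp X → ∀ i : ℕ, 2 * i ≤ X.dim + 1 →
      LefschetzAt H L i (X.dim + 1 - 2 * i)) ↔
      ∀ (X : 𝒱.Obj) (L : C.A X), L ∈ Amp X → ∀ m : ℕ, X.dim = 2 * m → LefschetzAt H L m 1 := by
  constructor
  · intro h X L hL m hm
    have h1 := h X L hL m (by omega)
    have e : X.dim + 1 - 2 * m = 1 := by omega
    rwa [e] at h1
  · intro h X L hL i hi
    obtain ⟨hL1, hprod⟩ := hA X L hL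
    rcases Nat.eq_zero_or_pos (X.dim + 1 - 2 * i) with h0 | h0
    · rw [h0]
      refine ⟨fun z _ _ hz => ?_, fun y hy hcl => ⟨y, hy, hcl, ?_⟩⟩
      · rwa [pow_zero, one_mul] at hz
      · rw [pow_zero, one_mul]
    · obtain ⟨P, f, ξ, hf, hG⟩ := hprod (X.dim + 1 - 2 * i) h0
      rw [lefschetz_iff hf hL1 i]
      have hd := IsProjBundle.dim_eq hf
      exact h P _ hG (i + (X.dim + 1 - 2 * i) - 1) (by omega)

end Pool.Agent.Q72.HI
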